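import Pool.Agent.H.MP_a07d0e_nt.G

namespace Pool.Agent.Results.MP_a07d0e_nt.Full

/-- the Gauss map `x ↦ 1/x - ⌊1/x⌋` -/
noncomputable def gauss (x : ℝ) : ℝ := Int.fract (1 / x)

/-- the continued fraction digit `a_k(x)`, `k ≥ 1`, of `x = [a_1, a_2, …] = 1/(a_1 + 1/(a_2 + ⋯))` -/
noncomputable def a (k : ℕ) (x : ℝ) : ℤ := ⌊1 / gauss^[k - 1] x⌋

/-- the set `𝓑_{B,j}` -/
def BSet (B j : ℕ) : Set ℝ :=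
  {x | Irrational x ∧ 0 < x ∧ x < 1 ∧ (∀ k : ℕ, 1 ≤ k → k ≤ j → a k x ≤ B + 1) ∧
    ∀ k : ℕ, j < k → a k x ≤ B}

/-- the solution set `S_j` -/
def S (j : ℕ) : Set (ℝ × ℝ × ℝ) :=
  {p | p.1 ∈ BSet 2 j ∧ p.2.1 ∈ BSet 2 j ∧ p.2.2 ∈ BSet 2 j ∧ p.1 ≤ p.2.1 ∧ p.2.1 ≤ p.2.2 ∧
    p.1 + p.2.1 + p.2.2 = 1}

theorem result : ∀ j : ℕ, 2 ≤ j → (S j).Infinite := by
  intro j hj
  have key : ∀ x, H.MP_a07d0e_nt.BB 2 x → x ∈ BSet 2 j := by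
    intro x hx
    obtain ⟨h1, h2, h3, h4⟩ := H.MP_a07d0e_nt.BB_mono hx hj
    refine ⟨h1, h2, h3, fun k k1 k2 => ?_, fun k k1 => ?_⟩
    · exact (h4 (k - 1)).1 (by omega)
    · exact (h4 (k - 1)).2 (by omega)
  refine H.MP_a07d0e_nt.main.mono ?_
  rintro p ⟨h1, h2, h3, h4⟩
  exact ⟨key _ h1, key _ h2, key _ h3, h4⟩

end Pool.Agent.Results.MP_a07d0e_nt.Full
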